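import Mathlib
import Pool.Agent.Q127.Gap.Main
import Pool.Agent.Q128.AdSepNum

/-!
# The gap between adaptable and separation choice number is unbounded for every uniformity `r ≥ 2`

For `r ≥ 3` the hypergraphs are complete `r`-uniform hypergraphs (`Pool.Agent.Q127.Gap.Main`). For
`r = 2` they are the closures of rooted trees with `K` levels in which the vertices of level `i` have
`K - i` children (level 1 is the root): the adaptable choice number is at least `K`, and a
conditional-expectation argument shows that the separation choice number is at most `K - t` for large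
`K`.

The definitions used here (`Uniform`, `Separated`, `Proper`, `Adapted`, `chSep`, `chAd`) are those of
`Pool.Agent.Q127.Sep.Defs`.
-/

set_option autoImplicit false

namespace Pool.Agent.Results.MP_0a2cd2_co.GapAll

/-- For all `r ≥ 2` and all `k` there is a finite `r`-uniform hypergraph `H` with
`ch_ad(H) - ch_sep(H) ≥ k`. -/
theorem result (r k : ℕ) (hr : 2 ≤ r) :
    ∃ (V : Type) (_ : Fintype V) (H : Finset (Finset V)), Q127.Sep.Uniform r H ∧
      Q127.Sep.chSep H + k ≤ Q127.Sep.chAd H := by
  rcases Nat.lt_or_ge 2 r with h | h
  · obtain ⟨n, H, h1, h2⟩ := Q127.Gap.gap r k h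
    exact ⟨Fin n, inferInstance, H, h1, h2⟩
  · have hr2 : r = 2 := by omega
    subst hr2
    obtain ⟨K, h1, h2⟩ := Q128.AdSep.gap_two k
    exact ⟨Q128.AdSep.TV K, inferInstance, Q128.AdSep.edges K, h1, h2⟩

end Pool.Agent.Results.MP_0a2cd2_co.GapAll
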